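import Mathlib
import Pool.Agent.Work.MP_b25393_ag.U.Asm

set_option autoImplicit false
open scoped LinearAlgebra.Projectivization

namespace Pool.Agent.Results.MP_b25393_ag.CollinearPencils

universe u

/-- Points of the projective plane over `F`; lines are given by the same data (their coefficients
up to a scalar). -/
abbrev Plane (F : Type u) [Field F] := ℙ F (Fin 3 → F)

/-- The point `p` lies on the line `L`. -/
def OnLine {F : Type u} [Field F] (p L : Plane F) : Prop := ∑ i, p.rep i * L.rep i = 0

/-- The number of lines of `A` through the point `p`. -/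
noncomputable def multiplicity {F : Type u} [Field F] (A : Finset (Plane F)) (p : Plane F) : ℕ :=
  {L : Plane F | L ∈ A ∧ OnLine p L}.ncard

/-- The number `t_m` of points of the plane lying on exactly `m` lines of `A`. -/
noncomputable def t {F : Type u} [Field F] (A : Finset (Plane F)) (m : ℕ) : ℕ :=
  {p : Plane F | multiplicity A p = m}.ncard

/-- At least three lines, no point on all of them and no point on all of them but one. -/
def IsArrangement {F : Type u} [Field F] (A : Finset (Plane F)) : Prop :=
  3 ≤ A.card ∧ ∀ p : Plane F, multiplicity A p ≠ A.card ∧ multiplicity A p ≠ A.card - 1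

/-- The first Chern number `9 - 5d + Σ (3m-4) t_m`. -/
noncomputable def c1sq {F : Type u} [Field F] (A : Finset (Plane F)) : ℝ :=
  9 - 5 * (A.card : ℝ) + ∑ m ∈ Finset.Icc 2 A.card, (3 * (m : ℝ) - 4) * (t A m : ℝ)

/-- The second Chern number `3 - 2d + Σ (m-1) t_m`. -/
noncomputable def c2 {F : Type u} [Field F] (A : Finset (Plane F)) : ℝ :=
  3 - 2 * (A.card : ℝ) + ∑ m ∈ Finset.Icc 2 A.card, ((m : ℝ) - 1) * (t A m : ℝ)

section aux

open Pool.Agent.Work.MP_b25393_ag
open scoped Classical

variable {F : Type u} [Field F]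

lemma multiplicity_eq (A : Finset (Plane F)) (p : Plane F) : multiplicity A p = Str.mult A p := by
  unfold multiplicity Str.mult
  rw [← Set.ncard_coe_finset]
  congr 1
  ext L
  rw [Finset.coe_filter]
  rfl

lemma isArrangement_iff (A : Finset (Plane F)) : IsArrangement A ↔ Str.nondeg A := by
  unfold IsArrangement Str.nondeg
  simp only [multiplicity_eq]
  refine and_congr_right fun h3 => forall_congr' fun p => ?_
  have := Str.mult_le_card A p
  omega

lemma slope_eq (A : Finset (Plane F)) : c1sq A / c2 A = Str.slope A := by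
  rw [← Str.slope_eq]
  unfold c1sq c2 t
  simp only [multiplicity_eq]

end aux

/-- Let `k` be a subfield of `ℝ` (for example `ℚ`), `M` a line of the projective plane over `k` and
`Z` a finite set of points of `M`. There are `ε > 0` and `d₀` such that every arrangement of
`d ≥ d₀` lines over `k`, all but at most `ε d` of which pass through a point of `Z`, has Chern
slope at most `5/2 - ε`. -/
theorem result {k : Type u} [Field k] (σ : k →+* ℝ) (M : Plane k) (Z : Finset (Plane k))
    (hZ : ∀ z ∈ Z, OnLine z M) :
    ∃ ε : ℝ, 0 < ε ∧ ∃ d₀ : ℕ, ∀ A : Finset (Plane k), IsArrangement A → d₀ ≤ A.card →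
      ({L : Plane k | L ∈ A ∧ ∀ z ∈ Z, ¬ OnLine z L}.ncard : ℝ) ≤ ε * A.card →
      c1sq A / c2 A ≤ 5 / 2 - ε := by
  classical
  obtain ⟨ε, hε, d0, h⟩ := Pool.Agent.Work.MP_b25393_ag.U.main_ok σ M Z hZ
  refine ⟨ε, hε, d0, fun A hA hd hfew => ?_⟩
  rw [slope_eq]
  refine h A ((isArrangement_iff A).mp hA) hd ?_
  have h1 : {L : Plane k | L ∈ A ∧ ∀ z ∈ Z, ¬ OnLine z L}.ncard =
      (A.filter fun L => ∀ z ∈ Z, ¬ Pool.Agent.Work.MP_b25393_ag.Str.inc z L).card := by
    rw [← Set.ncard_coe_finset]
    congr 1
    ext L
    rw [Finset.coe_filter]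
    rfl
  rw [h1] at hfew
  convert hfew using 3

end Pool.Agent.Results.MP_b25393_ag.CollinearPencils
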