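import Mathlib
import Pool.Agent.Work.MP_b25393_ag.Final

set_option autoImplicit false
open scoped LinearAlgebra.Projectivization

namespace Pool.Agent.Results.MP_b25393_ag.SlopesTo245

/-- Every real number in `[2, 49/20]` is an accumulation point of the set of Chern slopes
(9−5d+Σ(3k−4)t_k)/(3−2d+Σ(k−1)t_k) of arrangements of d≥3 rational lines, with no point on all
d or d−1 lines. -/
theorem result :
    Set.Icc (2 : ℝ) (49 / 20) ⊆ derivedSet {s : ℝ | ∃ A : Finset (ℙ ℚ (Fin 3 → ℚ)),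
      3 ≤ A.card ∧
      (¬ ∃ p : ℙ ℚ (Fin 3 → ℚ),
          (A.filter (fun L => ∑ i, p.rep i * L.rep i = 0)).card = A.card) ∧
      (¬ ∃ p : ℙ ℚ (Fin 3 → ℚ),
          (A.filter (fun L => ∑ i, p.rep i * L.rep i = 0)).card = A.card - 1) ∧
      s = ((9 : ℝ) - 5 * (A.card : ℝ)
            + ∑ k ∈ Finset.Icc 2 A.card, (3 * (k : ℝ) - 4) *
                (({p : ℙ ℚ (Fin 3 → ℚ) |
                    (A.filter (fun L => ∑ i, p.rep i * L.rep i = 0)).card = k}.ncard : ℕ) : ℝ))
          / ((3 : ℝ) - 2 * (A.card : ℝ)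
            + ∑ k ∈ Finset.Icc 2 A.card, ((k : ℝ) - 1) *
                (({p : ℙ ℚ (Fin 3 → ℚ) |
                    (A.filter (fun L => ∑ i, p.rep i * L.rep i = 0)).card = k}.ncard : ℕ) : ℝ))} :=
  Pool.Agent.Work.MP_b25393_ag.main

end Pool.Agent.Results.MP_b25393_ag.SlopesTo245
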